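import Pool.Agent.ConnAug.Final
import Pool.Agent.ConnAug.BM
import Pool.Agent.ConnAug.CNT
import Pool.Agent.ConnAug.K1U

/-!
# Worst-case edge-connectivity augmentation from `k` to `l` (Q2 of MP_30a809_co)

For all `1 ≤ k < l < n`, the value `e_e(n; k, l)` equals `eeVal n k l`.
-/

namespace Pool.Agent.Results.MP_30a809_co.EdgeAug

open Pool.Agent.ConnAug

/-- `e_e(n; k, l) = eeVal n k l` for all `1 ≤ k < l < n`. -/
theorem result (n k l : ℕ) (hk : 1 ≤ k) (hkl : k < l) (hln : l < n) :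
    IsLeast {e : ℕ | ∀ G : SimpleGraph (Fin n), G.IsEdgeConnected k →
      ∃ G' : SimpleGraph (Fin n), G ≤ G' ∧ G'.IsEdgeConnected l ∧
        (G'.edgeSet \ G.edgeSet).ncard ≤ e} (eeVal n k l) :=
  final_of BM.bm_proof (CNT_proof hubLe) K1U.k1u_proof n k l hk hkl hln

end Pool.Agent.Results.MP_30a809_co.EdgeAug
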